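import Pool.Agent.H28.N6.Lib
import Pool.Agent.H79.N6D.NRR

/-!
# Row DNFR of n6_modules: normal form near a simple root of the determinant
-/

set_option autoImplicit false

open Matrix Pool.Agent.H28.N6 Pool.Agent.H79.N6D

namespace Pool.Agent.H20.N6D

section

variable {F : Type} [NontriviallyNormedField F] [IsUltrametricDist F] {ι : Type} [Fintype ι]
  [DecidableEq ι]

omit [DecidableEq ι] in
theorem mul_le_entry (A B : Matrix ι ι F) {a b : ℝ} (hb : 0 ≤ b) (ha : 0 ≤ a)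
    (hA : ∀ i j, ‖A i j‖ ≤ a) (hB : ∀ i j, ‖B i j‖ ≤ b) (i j : ι) : ‖(A * B) i j‖ ≤ a * b := by
  rw [Matrix.mul_apply]
  refine IsUltrametricDist.norm_sum_le_of_forall_le_of_nonneg (mul_nonneg ha hb) fun k _ => ?_
  rw [norm_mul]
  exact mul_le_mul (hA i k) (hB k j) (norm_nonneg _) ha

omit [DecidableEq ι] in
theorem mulVec_le_entry (A : Matrix ι ι F) (v : ι → F) {a b : ℝ} (hb : 0 ≤ b) (ha : 0 ≤ a)
    (hA : ∀ i j, ‖A i j‖ ≤ a) (hv : ∀ i, ‖v i‖ ≤ b) (i : ι) : ‖(A *ᵥ v) i‖ ≤ a * b := by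
  show ‖∑ j, A i j * v j‖ ≤ a * b
  refine IsUltrametricDist.norm_sum_le_of_forall_le_of_nonneg (mul_nonneg ha hb) fun k _ => ?_
  rw [norm_mul]
  exact mul_le_mul (hA i k) (hv k) (norm_nonneg _) ha

omit [DecidableEq ι] in
theorem dot_le (v w : ι → F) {a b : ℝ} (hb : 0 ≤ b) (ha : 0 ≤ a)
    (hv : ∀ i, ‖v i‖ ≤ a) (hw : ∀ i, ‖w i‖ ≤ b) : ‖v ⬝ᵥ w‖ ≤ a * b := by
  show ‖∑ j, v j * w j‖ ≤ a * b
  refine IsUltrametricDist.norm_sum_le_of_forall_le_of_nonneg (mul_nonneg ha hb) fun k _ => ?_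
  rw [norm_mul]
  exact mul_le_mul (hv k) (hw k) (norm_nonneg _) ha

theorem inGL_mul {U V : Matrix ι ι F} (hU : InGL U) (hV : InGL V) : InGL (U * V) := by
  refine ⟨fun i j => ?_, ?_⟩
  · have := mul_le_entry U V zero_le_one zero_le_one hU.1 hV.1 i j
    rwa [one_mul] at this
  · rw [Matrix.det_mul, norm_mul, hU.2, hV.2, one_mul]

omit [IsUltrametricDist F] in
theorem inGL_det {U : Matrix ι ι F} (hU : InGL U) : U.det ≠ 0 := by
  intro h
  have := hU.2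
  rw [h, norm_zero] at this
  exact zero_ne_one this

theorem inGL_inv {U : Matrix ι ι F} (hU : InGL U) : InGL U⁻¹ := by
  have hu : IsUnit U.det := (inGL_det hU).isUnit
  refine ⟨fun i j => ?_, ?_⟩
  · rw [Matrix.inv_def, Matrix.smul_apply, smul_eq_mul, norm_mul, Ring.inverse_eq_inv', norm_inv,
      hU.2, inv_one, one_mul]
    exact adj_le U hU.1 i j
  · have h1 := congrArg Matrix.det (Matrix.mul_nonsing_inv U hu)
    rw [Matrix.det_mul, Matrix.det_one] at h1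
    have h2 := congrArg norm h1
    rwa [norm_mul, hU.2, one_mul, norm_one] at h2

/-- the block matrix `(1, 0; -c, V)` -/
def blm (c : Fin 3 → F) (V : Matrix (Fin 3) (Fin 3) F) : Matrix (Fin 4) (Fin 4) F :=
  Matrix.of (Fin.cons (Fin.cons 1 0) fun i => Fin.cons (-c i) (V i))

omit [IsUltrametricDist F] in
theorem blm_mulVec (c : Fin 3 → F) (V : Matrix (Fin 3) (Fin 3) F) (z : Fin 4 → F) :
    blm c V *ᵥ z = Fin.cons (z 0) (V *ᵥ (Fin.tail z) + (-z 0) • c) := by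
  funext i
  refine Fin.cases ?_ (fun i => ?_) i
  · simp [blm, mulVec, dotProduct, Fin.sum_univ_succ]
  · simp [blm, mulVec, dotProduct, Fin.sum_univ_succ, Fin.tail]
    ring

omit [IsUltrametricDist F] in
theorem blm_det (c : Fin 3 → F) (V : Matrix (Fin 3) (Fin 3) F) : (blm c V).det = V.det := by
  rw [det_block _ (fun i => by simp [blm])]
  have h1 : (blm c V) 0 0 = 1 := by simp [blm]
  have h2 : (blm c V).submatrix Fin.succ Fin.succ = V := by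
    ext i j
    simp [blm]
  rw [h1, h2, one_mul]

omit [IsUltrametricDist F] in
theorem blm_inGL (c : Fin 3 → F) (V : Matrix (Fin 3) (Fin 3) F) (hc : ∀ i, ‖c i‖ ≤ 1)
    (hV : InGL V) : InGL (blm c V) := by
  refine ⟨fun i j => ?_, by rw [blm_det]; exact hV.2⟩
  refine Fin.cases ?_ (fun i => ?_) i
  · refine Fin.cases ?_ (fun j => ?_) j
    · simp [blm]
    · simp [blm]
  · refine Fin.cases ?_ (fun j => ?_) j
    · simpa [blm] using hc i
    · simpa [blm] using hV.1 i j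

theorem tail_eq (z : Fin 4 → F) : ![z 1, z 2, z 3] = Fin.tail z := by
  funext i
  fin_cases i <;> rfl

end

theorem pf_NFR (hNF0 : T_NF0) (hLCO : T_LCO) : T_NFR := by
  intro F _ _ _ h2 A B hA hB r hr1 hr2 hiso
  obtain ⟨U0, h, B3, β, b, hU0, hsym, hB3, hani, hb, hform⟩ := hNF0 F h2 A B hA hB r hr1 hr2 hiso
  have hdet : h.det ≠ 0 := ani_det h hani
  obtain ⟨δ1, hδ1, hlco⟩ := hLCO F h2 3 h hsym hdet
  obtain ⟨S, hS⟩ : ∃ S : ℝ, S = 1 + ∑ i, ∑ j, ‖B3 i j‖ + ∑ i, ∑ j, ‖h⁻¹ i j‖ + ∑ i, ‖β i‖ :=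
    ⟨_, rfl⟩
  have s1 : 0 ≤ ∑ i, ∑ j, ‖B3 i j‖ :=
    Finset.sum_nonneg fun _ _ => Finset.sum_nonneg fun _ _ => norm_nonneg _
  have s2 : 0 ≤ ∑ i, ∑ j, ‖h⁻¹ i j‖ :=
    Finset.sum_nonneg fun _ _ => Finset.sum_nonneg fun _ _ => norm_nonneg _
  have s3 : 0 ≤ ∑ i, ‖β i‖ := Finset.sum_nonneg fun _ _ => norm_nonneg _
  have hent : ∀ (D : Matrix (Fin 3) (Fin 3) F) (i j : Fin 3), ‖D i j‖ ≤ ∑ i, ∑ j, ‖D i j‖ := by
    intro D i j
    exact (Finset.single_le_sum (f := fun j => ‖D i j‖) (fun _ _ => norm_nonneg _)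
      (Finset.mem_univ j)).trans (Finset.single_le_sum (f := fun i => ∑ j, ‖D i j‖)
      (fun _ _ => Finset.sum_nonneg fun _ _ => norm_nonneg _) (Finset.mem_univ i))
  have hB3S : ∀ i j, ‖B3 i j‖ ≤ S := fun i j => by linarith [hent B3 i j]
  have hhS : ∀ i j, ‖h⁻¹ i j‖ ≤ S := fun i j => by linarith [hent h⁻¹ i j]
  have hβS : ∀ i, ‖β i‖ ≤ S := fun i => by
    linarith [Finset.single_le_sum (f := fun i => ‖β i‖) (fun _ _ => norm_nonneg _)
      (Finset.mem_univ i)]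
  have hS1 : 1 ≤ S := by linarith
  have hS0 : 0 < S := by linarith
  have hb0 : 0 < ‖b‖ := norm_pos_iff.2 hb
  refine ⟨h, ‖b‖, min (δ1 / S) (min (1 / (S * S)) (‖b‖ / (S * (S * S)))), hani, hsym, hb0,
    lt_min (by positivity) (lt_min (by positivity) (by positivity)), fun t htr ht => ?_⟩
  obtain ⟨u, hu⟩ : ∃ u, u = t - r := ⟨_, rfl⟩
  have hu0 : u ≠ 0 := by
    rw [hu]
    exact sub_ne_zero.2 htr
  have hun : 0 < ‖u‖ := norm_pos_iff.2 hu0
  rw [← hu] at ht ⊢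
  rw [lt_min_iff, lt_min_iff, lt_div_iff₀ hS0, lt_div_iff₀ (by positivity),
    lt_div_iff₀ (by positivity)] at ht
  obtain ⟨ht1, ht2, ht3⟩ := ht
  -- the matrix `h + u B3`
  obtain ⟨Gu, hGu⟩ : ∃ Gu, Gu = h + u • B3 := ⟨_, rfl⟩
  have hGs : Gu.transpose = Gu := by
    rw [hGu, Matrix.transpose_add, Matrix.transpose_smul, hsym, hB3]
  obtain ⟨U3, hU3, hU3e⟩ := hlco Gu hGs fun i j => by
    rw [hGu, Matrix.add_apply, add_sub_cancel_left, Matrix.smul_apply, smul_eq_mul, norm_mul]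
    refine lt_of_le_of_lt (mul_le_mul_of_nonneg_left (hB3S i j) hun.le) ht1
  have hu3 : IsUnit U3.det := (inGL_det hU3).isUnit
  obtain ⟨Vv, hV⟩ : ∃ Vv, Vv = U3⁻¹ := ⟨_, rfl⟩
  have hVg : InGL Vv := by
    rw [hV]
    exact inGL_inv hU3
  have hUV : U3 * Vv = 1 := by
    rw [hV]
    exact Matrix.mul_nonsing_inv _ hu3
  have hVU : Vv * U3 = 1 := by
    rw [hV]
    exact Matrix.nonsing_inv_mul _ hu3
  obtain ⟨c, hc⟩ : ∃ c, c = u • ((Vv * h⁻¹ * Vvᵀ) *ᵥ β) := ⟨_, rfl⟩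
  have hGc : Gu *ᵥ c = u • β := by
    have e1 : Gu * (Vv * h⁻¹ * Vvᵀ) = 1 := by
      rw [← hU3e]
      calc U3ᵀ * h * U3 * (Vv * h⁻¹ * Vvᵀ) = U3ᵀ * (h * (U3 * Vv) * h⁻¹) * Vvᵀ := by
            simp only [Matrix.mul_assoc]
        _ = 1 := by
            rw [hUV, Matrix.mul_one, Matrix.mul_nonsing_inv _ hdet.isUnit, Matrix.mul_one,
              ← Matrix.transpose_mul, hVU, Matrix.transpose_one]
    rw [hc, mulVec_smul, mulVec_mulVec, e1, one_mulVec]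
  have hcn : ∀ i, ‖c i‖ ≤ ‖u‖ * (S * S) := by
    intro i
    rw [hc, Pi.smul_apply, smul_eq_mul, norm_mul]
    refine mul_le_mul_of_nonneg_left ?_ hun.le
    refine mulVec_le_entry _ β hS0.le hS0.le (fun i j => ?_) hβS i
    have h1 := mul_le_entry Vv h⁻¹ hS0.le zero_le_one hVg.1 hhS
    have h3 := mul_le_entry (Vv * h⁻¹) Vvᵀ zero_le_one (by linarith) h1
      (fun i j => hVg.1 j i) i j
    rwa [one_mul, mul_one] at h3
  have hc1 : ∀ i, ‖c i‖ ≤ 1 := fun i => (hcn i).trans (by linarith)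
  have hβc : ‖β ⬝ᵥ c‖ < ‖b‖ := by
    have h1 := dot_le β c (by positivity : 0 ≤ ‖u‖ * (S * S)) hS0.le hβS hcn
    refine lt_of_le_of_lt h1 (lt_of_le_of_lt (le_of_eq (by ring)) ht3)
  refine ⟨U0 * blm c Vv, u * b - u * (β ⬝ᵥ c), inGL_mul hU0 (blm_inGL c Vv hc1 hVg), ?_,
    fun z => ?_⟩
  · rw [← mul_sub, norm_mul, mul_comm]
    congr 1
    rw [sub_eq_add_neg, IsUltrametricDist.norm_add_eq_max_of_norm_ne_norm
      (by rw [norm_neg]; exact hβc.ne'), norm_neg, max_eq_left hβc.le]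
  · have ht' : A + t • B = (A + r • B) + u • B := by
      rw [hu, sub_smul]
      abel
    obtain ⟨e1, e2⟩ := hform (blm c Vv *ᵥ z)
    rw [← mulVec_mulVec, ht', qf_pencil, e1, e2, tail_eq, tail_eq, blm_mulVec]
    have e3 : (Fin.cons (z 0) (Vv *ᵥ (Fin.tail z) + (-z 0) • c) : Fin 4 → F) 0 = z 0 := rfl
    have e4 : Fin.tail (Fin.cons (z 0) (Vv *ᵥ (Fin.tail z) + (-z 0) • c) : Fin 4 → F) =
        Vv *ᵥ (Fin.tail z) + (-z 0) • c := rfl
    rw [e3, e4]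
    obtain ⟨x, hx⟩ : ∃ x, x = Vv *ᵥ (Fin.tail z) := ⟨_, rfl⟩
    rw [← hx]
    have e5 : qf Gu (x + (-z 0) • c) = qf h (x + (-z 0) • c) + u * qf B3 (x + (-z 0) • c) := by
      rw [hGu, qf_pencil]
    have e6 : qf Gu (x + (-z 0) • c) = qf Gu x + z 0 ^ 2 * (u * (β ⬝ᵥ c)) -
        2 * z 0 * (u * (β ⬝ᵥ x)) := by
      rw [qf_polar Gu hGs, qf_smul_vec, mulVec_smul, hGc]
      have e7 : qf Gu c = u * (β ⬝ᵥ c) := by
        unfold qf
        rw [hGc, dotProduct_smul, smul_eq_mul, dotProduct_comm]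
      rw [e7, dotProduct_smul, dotProduct_smul, dotProduct_comm x β]
      simp only [smul_eq_mul]
      ring
    have e7 : qf Gu x = qf h (Fin.tail z) := by
      rw [← hU3e, qf_congr, hx, mulVec_mulVec, hUV, one_mulVec]
    have e8 : β ⬝ᵥ (x + (-z 0) • c) = β ⬝ᵥ x - z 0 * (β ⬝ᵥ c) := by
      rw [dotProduct_add, dotProduct_smul, smul_eq_mul]
      ring
    rw [e8]
    linear_combination -e5 + e6 + e7

end Pool.Agent.H20.N6D
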