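import Pool.Agent.H28.N6.Targets
import Pool.Agent.H81.SAB.STI
import Pool.Agent.H89.SAB.HYP
import Pool.Agent.H44.SAB.TIH
import Pool.Agent.H81.SAB.TIC
import Pool.Agent.H79.SAB.EXC
import Pool.Agent.H17.SAB.STL
import Pool.Agent.H69.N6D.CNV

/-!
# Row DSPW of n6_modules: Springer for totally isotropic subspaces
-/

set_option autoImplicit false

open Polynomial Matrix

namespace Pool.Agent.H20.N6D

open Pool.Agent.H28.N6 in
theorem spw_aux (hSTI : Pool.Agent.H32.SAB.T_STI) (m : ℕ) : ∀ (k K : Type) [Field k] [Field K]
    [Algebra k K] [FiniteDimensional k K], (2 : k) ≠ 0 → Module.finrank k K = m → Odd m →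
    ∀ (n r : ℕ) (A : Matrix (Fin n) (Fin n) k), A.IsSymm → A.det ≠ 0 →
    Pool.Agent.H32.SAB.TI (A.map (algebraMap k K)) r → Pool.Agent.H32.SAB.TI A r := by
  induction m using Nat.strong_induction_on with
  | _ m ih =>
    intro k K _ _ _ _ h2 hm hodd n r A hA hdet hTI
    by_cases hs : Function.Surjective (algebraMap k K)
    · have hb : Function.Bijective (Algebra.ofId k K) := ⟨(algebraMap k K).injective, hs⟩
      have h1 := Pool.Agent.H17.SAB.ti_transport (AlgEquiv.ofBijective _ hb).symm hTI
      have hid : A.map (algebraMap k k) = A := by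
        ext i j
        simp
      rwa [hid] at h1
    · obtain ⟨α, hα⟩ := not_forall.1 hs
      have hint : IsIntegral k α := Algebra.IsIntegral.isIntegral α
      have hmul := Module.finrank_mul_finrank k (IntermediateField.adjoin k {α}) K
      rw [hm] at hmul
      have hne : Module.finrank k (IntermediateField.adjoin k {α}) ≠ 1 := by
        intro h1
        rw [IntermediateField.finrank_eq_one_iff] at h1
        have h3 : α ∈ IntermediateField.adjoin k {α} := IntermediateField.mem_adjoin_simple_self k α
        rw [h1, IntermediateField.mem_bot] at h3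
        exact hα h3
      rw [← hmul, Nat.odd_mul] at hodd
      have hpos1 : 0 < Module.finrank k (IntermediateField.adjoin k {α}) := Module.finrank_pos
      have hpos2 : 0 < Module.finrank (IntermediateField.adjoin k {α}) K := Module.finrank_pos
      have hlt : Module.finrank (IntermediateField.adjoin k {α}) K < m := by
        rw [← hmul]
        nlinarith [Nat.lt_of_le_of_ne hpos1 hne.symm]
      have h2L : (2 : IntermediateField.adjoin k {α}) ≠ 0 := by
        have h8 := (_root_.map_ne_zero (algebraMap k (IntermediateField.adjoin k {α}))).2 h2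
        rwa [map_ofNat] at h8
      have hAL : (A.map (algebraMap k (IntermediateField.adjoin k {α}))).IsSymm := hA.map _
      have hdL : (A.map (algebraMap k (IntermediateField.adjoin k {α}))).det ≠ 0 := by
        have h3 : (A.map (algebraMap k (IntermediateField.adjoin k {α}))).det =
            algebraMap k (IntermediateField.adjoin k {α}) A.det := by
          rw [RingHom.map_det]
          rfl
        rw [h3]
        exact (_root_.map_ne_zero _).2 hdet
      have hTL : Pool.Agent.H32.SAB.TI ((A.map (algebraMap k (IntermediateField.adjoin k {α}))).map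
          (algebraMap (IntermediateField.adjoin k {α}) K)) r := by
        have h3 : (A.map (algebraMap k (IntermediateField.adjoin k {α}))).map
            (algebraMap (IntermediateField.adjoin k {α}) K) = A.map (algebraMap k K) := by
          ext i j
          rfl
        rw [h3]
        exact hTI
      have h4 := ih _ hlt (IntermediateField.adjoin k {α}) K h2L rfl hodd.2 n r _ hAL hdL hTL
      refine hSTI k h2 (minpoly k α) (minpoly.irreducible hint) ?_ n r A hA hdet ?_
      · rw [← IntermediateField.adjoin.finrank hint]
        exact hodd.1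
      · have : Fact (Irreducible (minpoly k α)) := ⟨minpoly.irreducible hint⟩
        exact Pool.Agent.H17.SAB.ti_transport
          (IntermediateField.adjoinRootEquivAdjoin k hint).symm h4

open Pool.Agent.H28.N6 in
theorem pf_SPW (hSPR : Pool.Agent.H32.SAB.T_SPR) : T_SPW := by
  intro k K _ _ _ _ h2 hodd n r A hA hdet hI
  have hSTI : Pool.Agent.H32.SAB.T_STI := Pool.Agent.H81.SAB.STI.pf_STI hSPR
    Pool.Agent.H89.SAB.pf_HYP (Pool.Agent.H44.SAB.pf_TIH Pool.Agent.H79.SAB.pf_EXC)
    Pool.Agent.H81.SAB.pf_TIC
  have h2K : (2 : K) ≠ 0 := by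
    have h8 := (_root_.map_ne_zero (algebraMap k K)).2 h2
    rwa [map_ofNat] at h8
  have hAK : (A.map (algebraMap k K)).transpose = A.map (algebraMap k K) := by
    rw [← Matrix.transpose_map, hA]
  exact (Pool.Agent.H69.N6D.pf_CNV k h2 n r A hA).2 (spw_aux hSTI _ k K h2 rfl hodd n r A hA hdet
    ((Pool.Agent.H69.N6D.pf_CNV K h2K n r _ hAK).1 hI))

end Pool.Agent.H20.N6D
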